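import Mathlib
import Pool.Agent.EHD.Dim

/-!
MP_4f9849_an (Ehrenpreis: separation of zeros of exponential polynomials).
One coefficient of an exponential polynomial with real frequencies is varied: the inequality of Q1
(zeros polynomially separated) holds for all values of the coefficient outside a set of Hausdorff
dimension zero.
-/

namespace Pool.Agent.Results.MP_4f9849_an.DimensionZero

open Pool.Agent.EHD

theorem result {N : ℕ} (P : Fin N → Polynomial ℂ) (lam : Fin N → ℝ) (k : ℕ) (mu : ℝ) (F : ℂ → ℂ → ℂ)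
    (hF : ∀ c z, F c z = (∑ j, (P j).eval z * Complex.exp (Complex.I * (lam j : ℂ) * z)) +
      c * z ^ k * Complex.exp (Complex.I * (mu : ℂ) * z)) :
    dimH {c : ℂ | (∃ z, F c z ≠ 0) ∧
      ¬ ∃ (q : ℕ) (C : ℝ), 0 < C ∧ ∀ z₁ z₂ : ℂ, F c z₁ = 0 → F c z₂ = 0 → z₁ ≠ z₂ →
        C / (1 + ‖z₁‖) ^ q ≤ ‖z₁ - z₂‖} = 0 := by
  have hb : ∀ z, ev (∑ j, Finsupp.single (lam j - mu) (P j)) z =
      ∑ j, (P j).eval z * Complex.exp (Complex.I * ((lam j - mu : ℝ) : ℂ) * z) := by
    intro z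
    have key : ∀ s : Finset (Fin N), ev (∑ j ∈ s, Finsupp.single (lam j - mu) (P j)) z =
        ∑ j ∈ s, (P j).eval z * Complex.exp (Complex.I * ((lam j - mu : ℝ) : ℂ) * z) := by
      intro s
      induction s using Finset.induction_on with
      | empty => simp [ev]
      | insert j s hj ih => rw [Finset.sum_insert hj, Finset.sum_insert hj, ev_add, ev_single, ih]
    exact key _
  have hF' : ∀ c z, F c z = Complex.exp (Complex.I * (mu : ℂ) * z) *
      (ev (∑ j, Finsupp.single (lam j - mu) (P j)) z + c * z ^ k) := by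
    intro c z
    rw [hF, hb, mul_add, Finset.mul_sum]
    congr 1
    · refine Finset.sum_congr rfl fun j _ => ?_
      have : Complex.exp (Complex.I * (lam j : ℂ) * z) =
          Complex.exp (Complex.I * (mu : ℂ) * z) * Complex.exp (Complex.I * ((lam j - mu : ℝ) : ℂ) * z) := by
        rw [← Complex.exp_add]
        congr 1
        push_cast
        ring
      rw [this]
      ring
    · ring
  have h0 : ∀ c z, F c z = 0 ↔ ev (∑ j, Finsupp.single (lam j - mu) (P j)) z + c * z ^ k = 0 := by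
    intro c z
    rw [hF']
    simp [Complex.exp_ne_zero]
  have h1 : {c : ℂ | (∃ z, F c z ≠ 0) ∧
      ¬ ∃ (q : ℕ) (C : ℝ), 0 < C ∧ ∀ z₁ z₂ : ℂ, F c z₁ = 0 → F c z₂ = 0 → z₁ ≠ z₂ →
        C / (1 + ‖z₁‖) ^ q ≤ ‖z₁ - z₂‖} =
      {c : ℂ | (∃ z, ev (∑ j, Finsupp.single (lam j - mu) (P j)) z + c * z ^ k ≠ 0) ∧
        ¬ Sep (fun z => ev (∑ j, Finsupp.single (lam j - mu) (P j)) z + c * z ^ k)} := by
    ext c
    simp only [Set.mem_ofPred_eq, ne_eq, h0]
    exact Iff.rfl
  rw [h1]
  exact dim_zero _ k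

end Pool.Agent.Results.MP_4f9849_an.DimensionZero
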