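import Mathlib
import Pool.Agent.Helper77.EHR.Final4

/-!
MP_4f9849_an (Ehrenpreis: separation of zeros of exponential polynomials).
Exponential sums with at most four terms and algebraic frequencies: the inequality of Q1 holds for
all zeros outside an exceptional set with `O(log log R)` elements in the disc of radius `R`.
-/

namespace Pool.Agent.Results.MP_4f9849_an.FourTerms

theorem result (c : Fin 4 → ℂ) (lam : Fin 4 → ℝ) (hc : ∃ j, c j ≠ 0)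
    (hlam : Function.Injective lam) (halg : ∀ j, IsAlgebraic ℚ (lam j)) (f : ℂ → ℂ)
    (hf : ∀ z, f z = ∑ j, c j * Complex.exp (Complex.I * (lam j : ℂ) * z)) :
    ∃ (q : ℕ) (C : ℝ), ∀ R : ℝ, 3 ≤ R →
      {z₁ : ℂ | ‖z₁‖ ≤ R ∧ f z₁ = 0 ∧
        ∃ z₂, z₂ ≠ z₁ ∧ f z₂ = 0 ∧ ‖z₁ - z₂‖ * (1 + ‖z₁‖) ^ q < 1}.Finite ∧
      ({z₁ : ℂ | ‖z₁‖ ≤ R ∧ f z₁ = 0 ∧
        ∃ z₂, z₂ ≠ z₁ ∧ f z₂ = 0 ∧ ‖z₁ - z₂‖ * (1 + ‖z₁‖) ^ q < 1}.ncard : ℝ)
        ≤ C * Real.log (Real.log R) := by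
  have e : f = Pool.Agent.Helper77.EHR.F c lam := funext hf
  subst e
  exact Pool.Agent.Helper77.EHR.four_terms c lam hc hlam halg

end Pool.Agent.Results.MP_4f9849_an.FourTerms
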