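import Mathlib
import Pool.Agent.Helper77.EHR.P.Asm

/-!
MP_4f9849_an (Ehrenpreis: separation of zeros of exponential polynomials).
All exponential sums with algebraic frequencies: in the disc of radius `R` at most
`C R (d + 1 / R) ^ κ` zeros have another zero at distance at most `d`.
-/

namespace Pool.Agent.Results.MP_4f9849_an.GapPowerLaw

theorem result {n : ℕ} (c : Fin n → ℂ) (lam : Fin n → ℝ) (hc : ∃ j, c j ≠ 0)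
    (hlam : Function.Injective lam) (halg : ∀ j, IsAlgebraic ℚ (lam j)) (f : ℂ → ℂ)
    (hf : ∀ z, f z = ∑ j, c j * Complex.exp (Complex.I * (lam j : ℂ) * z)) :
    ∃ κ C : ℝ, 0 < κ ∧ ∀ R d : ℝ, 1 ≤ R → 0 ≤ d → d ≤ 1 →
      {z₁ : ℂ | ‖z₁‖ ≤ R ∧ f z₁ = 0 ∧ ∃ z₂, z₂ ≠ z₁ ∧ f z₂ = 0 ∧ ‖z₁ - z₂‖ ≤ d}.Finite ∧
      ({z₁ : ℂ | ‖z₁‖ ≤ R ∧ f z₁ = 0 ∧ ∃ z₂, z₂ ≠ z₁ ∧ f z₂ = 0 ∧ ‖z₁ - z₂‖ ≤ d}.ncard : ℝ)
        ≤ C * R * (d + 1 / R) ^ κ :=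
  Pool.Agent.Helper77.EHR.P.power_law c lam hlam halg hc f hf

end Pool.Agent.Results.MP_4f9849_an.GapPowerLaw
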