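import Mathlib
import Pool.Agent.Helper77.EHR.Q.Final

/-!
MP_4f9849_an (Ehrenpreis: separation of zeros of exponential polynomials).
The whole class of Q1 (and arbitrary complex coefficients): the inequality of Q1 holds for all zeros
outside a set with at most `C R ^ (1 - κ)` elements in the disc of radius `R`.
-/

namespace Pool.Agent.Results.MP_4f9849_an.SparseExceptions

theorem result {n : ℕ} (p : Fin n → Polynomial ℂ) (lam : Fin n → ℝ) (hp : ∃ j, p j ≠ 0)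
    (hlam : Function.Injective lam) (halg : ∀ j, IsAlgebraic ℚ (lam j)) (f : ℂ → ℂ)
    (hf : ∀ z, f z = ∑ j, (p j).eval z * Complex.exp (Complex.I * (lam j : ℂ) * z)) :
    ∃ (q : ℕ) (κ C : ℝ), 0 < κ ∧ ∀ R : ℝ, 1 ≤ R →
      {z₁ : ℂ | ‖z₁‖ ≤ R ∧ f z₁ = 0 ∧
        ∃ z₂, z₂ ≠ z₁ ∧ f z₂ = 0 ∧ ‖z₁ - z₂‖ * (1 + ‖z₁‖) ^ q < 1}.Finite ∧
      ({z₁ : ℂ | ‖z₁‖ ≤ R ∧ f z₁ = 0 ∧
        ∃ z₂, z₂ ≠ z₁ ∧ f z₂ = 0 ∧ ‖z₁ - z₂‖ * (1 + ‖z₁‖) ^ q < 1}.ncard : ℝ)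
        ≤ C * R ^ (1 - κ) :=
  Pool.Agent.Helper77.EHR.Q.all_poly p lam hlam halg hp f hf

end Pool.Agent.Results.MP_4f9849_an.SparseExceptions
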